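import Pool.Agent.Run7.h560.AP.Forms2

set_option autoImplicit false

/-!
# Common offsets of several squares
-/

namespace Pool.Agent.Results.MP_73869e_nt.CommonOffsetsOfSquares

open Finset
open Pool.Agent.Run7.h560.AP

/-- the number of the residue classes `k` modulo `p` for which `p` divides one of the numbers `(n i) ^ 2 + k` -/
noncomputable def roots {r : ℕ} (n : Fin r → ℕ) (p : ℕ) : ℕ := Set.ncard {k : ℕ | k < p ∧ p ∣ ∏ i, (n i ^ 2 + k)}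

/-- the density `∏ (1 - roots(p) / p)` over the primes `p ≤ x` -/
noncomputable def dens {r : ℕ} (n : Fin r → ℕ) (x : ℕ) : ℝ :=
  ∏ p ∈ (range (x + 1)).filter Nat.Prime, (1 - (roots n p : ℝ) / p)

/-- the constants of the forms -/
def fc {r : ℕ} (n : Fin r → ℕ) : Fin r → ℤ := fun i => ((n i ^ 2 : ℕ) : ℤ)

/-- the coefficients of the forms -/
def fa (r : ℕ) : Fin r → ℤ := fun _ => 1

lemma fval {r : ℕ} (n : Fin r → ℕ) (k : ℕ) (i : Fin r) : fa r i * (k : ℤ) + fc n i = ((n i ^ 2 + k : ℕ) : ℤ) := by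
  unfold fa fc
  push_cast
  ring

lemma fprod {r : ℕ} (n : Fin r → ℕ) (k : ℕ) : ∏ i, (fa r i * k + fc n i) = ((∏ i, (n i ^ 2 + k) : ℕ) : ℤ) := by
  simp only [fval]
  rw [← Nat.cast_prod]

lemma rho_roots {r : ℕ} (n : Fin r → ℕ) (p : ℕ) : rho (fa r) (fc n) p = roots n p := by
  rw [rho_ncard (fa r) (fc n) p _ (fprod n)]
  unfold roots
  congr 1
  ext k
  rw [Set.mem_ofPred_eq, Set.mem_ofPred_eq, Int.natCast_dvd_natCast]

lemma forms_ok {r : ℕ} (n : Fin r → ℕ) : ∀ i, fa r i ≠ 0 ∧ IsCoprime (fa r i) (fc n i) :=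
  fun _ => ⟨one_ne_zero, isCoprime_one_left⟩

/-- an odd prime has a non-residue -/
lemma nonresidue (p : ℕ) (hp : p.Prime) (h2 : p ≠ 2) : ∃ k : ℕ, ∀ a : ℕ, ¬ p ∣ a ^ 2 + k := by
  have : Fact p.Prime := ⟨hp⟩
  obtain ⟨z, hz⟩ := FiniteField.exists_nonsquare (F := ZMod p) (by rw [ZMod.ringChar_zmod_n]; exact h2)
  refine ⟨(-z).val, fun a hd => hz ?_⟩
  rw [← ZMod.natCast_eq_zero_iff] at hd
  push_cast at hd
  rw [ZMod.natCast_zmod_val] at hd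
  refine ⟨(a : ZMod p), ?_⟩
  have : (a : ZMod p) ^ 2 = z := by
    have h3 : (a : ZMod p) ^ 2 + -z = 0 := hd
    linear_combination h3
  rw [← this, sq]

lemma admissible {r : ℕ} (n : Fin r → ℕ) (hn : ∀ i j, n i % 2 = n j % 2) (p : ℕ) (hp : p.Prime) : rho (fa r) (fc n) p < p := by
  apply rho_lt _ _ p hp
  by_cases h2 : p = 2
  · by_cases hr : Nonempty (Fin r)
    · obtain ⟨i₀⟩ := hr
      refine ⟨n i₀ + 1, fun i hd => ?_⟩
      rw [fval, Int.natCast_dvd_natCast, h2] at hd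
      have h3 := hn i i₀
      have h4 : (n i ^ 2 + (n i₀ + 1)) % 2 = 0 := Nat.mod_eq_zero_of_dvd hd
      have h5 : n i ^ 2 % 2 = n i % 2 := by
        rcases Nat.mod_two_eq_zero_or_one (n i) with h | h
        · rw [h, sq, Nat.mul_mod, h]
        · rw [h, sq, Nat.mul_mod, h]
      omega
    · exact ⟨0, fun i => absurd ⟨i⟩ hr⟩
  · obtain ⟨k, hk⟩ := nonresidue p hp h2
    refine ⟨k, fun i hd => ?_⟩
    rw [fval, Int.natCast_dvd_natCast] at hd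
    exact hk _ hd

/-- **Main theorem.** -/
theorem result :
    (∀ b : ℕ, 2 ≤ b → ∀ (σ : Type) [Fintype σ] (M : DFA ℕ σ), NonSparse (autoSet b M) → ∀ r : ℕ,
      ∃ (C : ℝ) (x₀ : ℕ), 0 < C ∧ ∀ x : ℕ, x₀ ≤ x → ∀ n : Fin r → ℕ, (∀ i j, n i % 2 = n j % 2) →
        (Set.ncard {k : ℕ | k ∈ autoSet b M ∧ k < x ∧ ∀ i, (n i ^ 2 + k).Prime} : ℝ) ≤
          C * below (autoSet b M) x * dens n x) ∧
    (∀ b : ℕ, 2 ≤ b → ∀ S : Finset ℕ, 0 ∈ S → 1 ∈ S → ∀ r D : ℕ, ∃ (R : ℕ) (η c c' : ℝ) (x₀ : ℕ), 0 < η ∧ 0 < c ∧ 0 < c' ∧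
      ∀ x : ℕ, x₀ ≤ x → ∀ n : Fin r → ℕ, (∀ i j, n i % 2 = n j % 2) → (∀ i, n i ^ 2 ≤ x ^ D) →
      (∃ e ∈ S, e < b ∧ ∀ i, Nat.Coprime (n i ^ 2 + e) b) →
        c' / Real.log x ^ r ≤ dens n x ∧
        c * below (digitSet b S) x * dens n x ≤
          (Set.ncard {k : ℕ | k ∈ digitSet b S ∧ k < x ∧ ∀ i, Almost R ((x : ℝ) ^ η) (n i ^ 2 + k)} : ℝ)) ∧
    (∀ b : ℕ, 2 ≤ b → (∀ p : ℕ, p.Prime → p ∣ b → p % 4 = 3) → ∀ S : Finset ℕ, 0 ∈ S → 1 ∈ S → ∀ r D : ℕ,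
      ∃ (R : ℕ) (η c : ℝ) (x₀ : ℕ), 0 < η ∧ 0 < c ∧
      ∀ x : ℕ, x₀ ≤ x → ∀ n : Fin r → ℕ, (∀ i j, n i % 2 = n j % 2) → (∀ i, n i ^ 2 ≤ x ^ D) →
        c * below (digitSet b S) x / Real.log x ^ r ≤
          (Set.ncard {k : ℕ | k ∈ digitSet b S ∧ k < x ∧ ∀ i, Almost R ((x : ℝ) ^ η) (n i ^ 2 + k)} : ℝ)) := by
  classical
  have hdens : ∀ (r : ℕ) (n : Fin r → ℕ) (x : ℕ), ∏ p ∈ (range (x + 1)).filter Nat.Prime, (1 - (rho (fa r) (fc n) p : ℝ) / p) = dens n x := by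
    intro r n x
    unfold dens
    apply prod_congr rfl
    intro p _
    rw [rho_roots]
  have hlower : ∀ b : ℕ, 2 ≤ b → ∀ S : Finset ℕ, 0 ∈ S → 1 ∈ S → ∀ r D : ℕ, ∃ (R : ℕ) (η c c' : ℝ) (x₀ : ℕ), 0 < η ∧ 0 < c ∧ 0 < c' ∧
      ∀ x : ℕ, x₀ ≤ x → ∀ n : Fin r → ℕ, (∀ i j, n i % 2 = n j % 2) → (∀ i, n i ^ 2 ≤ x ^ D) →
      (∃ e ∈ S, e < b ∧ ∀ i, Nat.Coprime (n i ^ 2 + e) b) →
        c' / Real.log x ^ r ≤ dens n x ∧
        c * below (digitSet b S) x * dens n x ≤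
          (Set.ncard {k : ℕ | k ∈ digitSet b S ∧ k < x ∧ ∀ i, Almost R ((x : ℝ) ^ η) (n i ^ 2 + k)} : ℝ) := by
    intro b hb S h0 h1 r D
    obtain ⟨R, η, c₀, N₀, hη, hc₀, h⟩ := digits_lower b hb S h0 h1 r D
    obtain ⟨c₁, hc₁, hl⟩ := prod_low r
    refine ⟨R, η, c₀, c₁, N₀ + 2, hη, hc₀, hc₁, fun x hx n hpar hn he => ?_⟩
    have h3 := hl (rho (fa r) (fc n)) x (by omega) (fun p hp =>
      ⟨rho_le (fa r) (fc n) (fun i => (forms_ok n i).2) p hp, admissible n hpar p hp⟩)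
    have h4 : ∏ p ∈ prs x, (1 - (rho (fa r) (fc n) p : ℝ) / p) = dens n x := hdens r n x
    rw [h4] at h3
    refine ⟨h3, ?_⟩
    obtain ⟨e, heS, heb, he⟩ := he
    have h2 := h x (by omega) (fa r) (fc n) (fun i => (forms_ok n i).2) (by
      intro i
      have hx1 : 1 ≤ x ^ D := Nat.one_le_pow _ _ (by omega)
      refine ⟨by simpa [fa] using hx1, ?_⟩
      unfold fc
      rw [Int.natAbs_natCast]
      exact hn i) (fun p hp _ => admissible n hpar p hp) ⟨e, heS, heb, by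
      intro i
      rw [fval, Nat.isCoprime_iff_coprime]
      exact he i⟩
    rw [hdens] at h2
    rw [digit_auto, below_cnt]
    refine h2.trans ?_
    rw [Nat.cast_le]
    have h3 := cnt_le_ncard b (dfa S) x
      (fun k => ∀ i, fa r i * k + fc n i ≠ 0 ∧ (fa r i * k + fc n i).natAbs.primeFactorsList.length ≤ R ∧
        ∀ p : ℕ, p.Prime → (p : ℤ) ∣ fa r i * k + fc n i → (x : ℝ) ^ η < p)
      {k : ℕ | k ∈ autoSet b (dfa S) ∧ k < x ∧ ∀ i, Almost R ((x : ℝ) ^ η) (n i ^ 2 + k)}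
      (fin_lt x _ (fun k hk => hk.2.1)) ∅ (by
      intro k a1 a2 a3
      left
      refine ⟨a1, a2, fun i => ?_⟩
      obtain ⟨b1, b2, b3⟩ := a3 i
      rw [fval] at b1 b2 b3
      rw [Int.natAbs_natCast] at b2
      exact ⟨by exact_mod_cast b1, b2, fun p hp hpd => b3 p hp (Int.natCast_dvd_natCast.2 hpd)⟩)
    rw [card_empty, add_zero] at h3
    exact h3
  refine ⟨fun b hb σ _ M hM r => ?_, hlower, fun b hb hb4 S h0 h1 r D => ?_⟩
  · obtain ⟨C, N₀, hC, h⟩ := sys_upper b hb M (nonsparse b M hM) r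
    refine ⟨C, N₀, hC, fun x hx n hpar => ?_⟩
    have h2 := h x hx (fa r) (fc n) (forms_ok n) (fun p hp => admissible n hpar p hp)
    rw [hdens] at h2
    rw [below_cnt]
    refine le_trans ?_ h2
    rw [Nat.cast_le]
    apply ncard_le_cnt
    rintro k ⟨a1, a2, a3⟩
    refine ⟨a1, a2, fun i => ?_⟩
    rw [fval, Int.natAbs_natCast]
    exact a3 i
  · obtain ⟨R, η, c, c', x₀, hη, hc, hc', h⟩ := hlower b hb S h0 h1 r D
    refine ⟨R, η, c * c', x₀, hη, by positivity, fun x hx n hpar hn => ?_⟩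
    obtain ⟨h3, h2⟩ := h x hx n hpar hn ⟨1, h1, by omega, fun i => by
      by_contra hcon
      obtain ⟨p, hp, hp1, hp2⟩ := Nat.Prime.not_coprime_iff_dvd.1 hcon
      have h5 := hb4 p hp hp2
      have : Fact p.Prime := ⟨hp⟩
      have h6 : ((n i : ZMod p)) ^ 2 = -1 := by
        have h7 : ((n i ^ 2 + 1 : ℕ) : ZMod p) = 0 := (ZMod.natCast_eq_zero_iff _ _).2 hp1
        push_cast at h7
        linear_combination h7
      have h8 : IsSquare (-1 : ZMod p) := ⟨(n i : ZMod p), by rw [← h6, sq]⟩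
      exact (ZMod.exists_sq_eq_neg_one_iff.1 h8) h5⟩
    refine le_trans ?_ h2
    calc c * c' * (below (digitSet b S) x : ℝ) / Real.log x ^ r = c * below (digitSet b S) x * (c' / Real.log x ^ r) := by ring
      _ ≤ _ := mul_le_mul_of_nonneg_left h3 (by positivity)

end Pool.Agent.Results.MP_73869e_nt.CommonOffsetsOfSquares
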