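import Pool.Agent.Run7.h931.SQ.Law

/-!
# Primes among `n² + s j`: the sharp constant two, for almost all sequences of shifts

The question is whether every interval `(n², n² + (log₂ n)²]`, of length `2.081... log² n`, contains a prime. In Cramér's model the
intervals `(n², n² + c log² n]` contain primes for all large `n` if and only if `c` is above `2`. Here the shifts `1, 2, ..., m` are
replaced by `s 0, ..., s (m - 1)`, where every `s j` runs through a window `(b j, b j + q]` of its own, and the law with
the constant `2` is proved for almost all choices.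

Method: second moments over the vectors of shifts, for `n` divisible by all small primes, with weights in which the shifts not prime to
the small primes are left out. The differences `n'² - n² = (n' - n) (n' + n)` form a sparse set; the prime pairs enter with the
correct constant for all windows at once and all differences outside one small exceptional set, the differences of squares in this
set are few by the mean square of the number of divisors, and the exponential moments of the singular series are taken
over the two factors.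
-/

set_option autoImplicit false

namespace Pool.Agent.Results.MP_73869e_nt.PerturbedSquareIntervals

open Finset

/-- The integers `1 ≤ n ≤ N` for which no `n² + s j`, `j < m`, is a prime. -/
def composite {m : ℕ} (N : ℕ) (s : Fin m → ℕ) : Finset ℕ := (Icc 1 N).filter fun n => ∀ j, ¬ (n ^ 2 + s j).Prime

open Classical in
/-- The largest `k ≤ m` for which there is an integer `1 ≤ n ≤ N` such that none of the `n² + s j`, `0 ≤ j < k`, is a prime. -/
noncomputable def longest {m : ℕ} (N : ℕ) (s : Fin m → ℕ) : ℕ :=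
  Nat.findGreatest (fun k => ∃ n, 1 ≤ n ∧ n ≤ N ∧ ∀ j : Fin m, (j : ℕ) < k → ¬ (n ^ 2 + s j).Prime) m

/-- The vectors of shifts: `s j` is in the window `(b j, b j + q]`. There are `q ^ m` of them. -/
def shifts {m : ℕ} (q : ℕ) (b : Fin m → ℕ) : Finset (Fin m → ℕ) := Fintype.piFinset fun j => Ioc (b j) (b j + q)

/-- Let `T`, `a` and `ε > 0` be given. For all large `N`, all `N² / log^a N ≤ q ≤ N²`, all `m` and all windows `(b j, b j + q]`,
`j < m`, with `b j ≤ T N²`:

**(1)** If `m ≥ (2 + ε) log² N`, then for all but `N^(-ε/4) q^m` of the `q^m` vectors `s` of shifts `s j ∈ (b j, b j + q]`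
there is, for every `n ≤ N`, a prime among `n² + s 0, ..., n² + s (m - 1)`.

**(2)** If `m ≤ (2 - ε) log² N`, then for all but `ε q^m` of these vectors the number of `n ≤ N` without this property is
between `N^(1 - m/(2 log² N) - ε)` and `N^(1 - m/(2 log² N) + ε)`.

**(3)** If `m ≥ (2 + ε) log² N`, then for all but `ε q^m` of these vectors the largest `k ≤ m` such that for some `n ≤ N` all of
`n² + s 0, ..., n² + s (k - 1)` are composite (not prime) is between `(2 - ε) log² N` and `(2 + ε) log² N`.

**(4)** If `m ≥ (log₂ N)²`, as in the question, then for all but `N^(-1/50) q^m` of these vectors there is, for every `n ≤ N`, a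
prime among `n² + s 0, ..., n² + s (m - 1)`. -/
theorem result (T a : ℕ) (ε : ℝ) (hε : 0 < ε) : ∃ N₀ : ℕ, ∀ N : ℕ, N₀ ≤ N → ∀ q : ℕ,
    (N : ℝ) ^ 2 ≤ q * Real.log N ^ a → q ≤ N ^ 2 → ∀ (m : ℕ) (b : Fin m → ℕ), (∀ j, b j ≤ T * N ^ 2) →
      ((2 + ε) * Real.log N ^ 2 ≤ m →
        (((shifts q b).filter fun s => (composite N s).Nonempty).card : ℝ) ≤ (N : ℝ) ^ (-(ε / 4)) * (q : ℝ) ^ m) ∧
      ((m : ℝ) ≤ (2 - ε) * Real.log N ^ 2 →
        (((shifts q b).filter fun s => ¬ ((N : ℝ) ^ (1 - m / (2 * Real.log N ^ 2) - ε) ≤ (composite N s).card ∧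
          ((composite N s).card : ℝ) ≤ (N : ℝ) ^ (1 - m / (2 * Real.log N ^ 2) + ε))).card : ℝ) ≤ ε * (q : ℝ) ^ m) ∧
      ((2 + ε) * Real.log N ^ 2 ≤ m →
        (((shifts q b).filter fun s => ε < |(longest N s : ℝ) / Real.log N ^ 2 - 2|).card : ℝ) ≤ ε * (q : ℝ) ^ m) ∧
      (Real.logb 2 N ^ 2 ≤ m →
        (((shifts q b).filter fun s => (composite N s).Nonempty).card : ℝ) ≤ (N : ℝ) ^ (-(1 / 50 : ℝ)) * (q : ℝ) ^ m) := by
  obtain ⟨n0, h⟩ := Filter.eventually_atTop.1 ((Pool.Agent.Run7.h931.SQ.one_q T a ε hε).and
    ((Pool.Agent.Run7.h931.SQ.two_q T a ε hε).and ((Pool.Agent.Run7.h931.SQ.law_q T a ε hε).and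
      (Pool.Agent.Run7.h931.SQ.one_q T a (8 / 100) (by norm_num)))))
  refine ⟨n0, fun N hN q hq hqN m b hb => ?_⟩
  obtain ⟨g1, g2, g3, g4⟩ := h N hN
  refine ⟨g1 q hq hqN m b hb, g2 q hq hqN m b hb, g3 q hq hqN m b hb, fun hm => ?_⟩
  have h1 : (2 + 8 / 100) * Real.log N ^ 2 ≤ (m : ℝ) := by
    refine le_trans ?_ hm
    have h2 : Real.logb 2 N ^ 2 = Real.log N ^ 2 / Real.log 2 ^ 2 := by
      unfold Real.logb
      rw [div_pow]
    rw [h2]
    have h3 := Real.log_two_lt_d9
    have h4 : 0 < Real.log 2 := Real.log_pos (by norm_num)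
    have h5 : Real.log 2 ^ 2 ≤ 0.48046 := by nlinarith
    rw [le_div_iff₀ (by positivity)]
    have h6 : 0 ≤ Real.log N ^ 2 := by positivity
    nlinarith
  have h2 := g4 q hq hqN m b hb h1
  have h3 : (-(8 / 100 / 4) : ℝ) = -(1 / 50) := by norm_num
  rw [h3] at h2
  exact h2

end Pool.Agent.Results.MP_73869e_nt.PerturbedSquareIntervals
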