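import Pool.Agent.Run7.h914.SQJ.CrvS
import Pool.Agent.Run7.h914.Gap

set_option autoImplicit false

/-!
# No primes near the squares of both coordinates of the points of plane curves modulo primes

Write `f(x) = log x (log₂ x)² log₄ x / (log₃ x)²` for the record size of the known prime-free intervals.

Let `p` be a large prime and let `F(x, y) = 0` be ANY absolutely irreducible plane curve over the field with
`p` elements, not a line, of degree at most `p ^ (δ / 50)`.  Every box `(M₁, M₁ + L₁] × (M₂, M₂ + L₂]` with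
`M₁, M₂ ≥ 2 p ^ δ`, with sides between `p ^ δ` and `p` and of area `V ≥ p ^ (3 / 2 + δ)` contains at least
`p ^ (-δ) V / p` integer points `(x, y)` with `F(x, y) ≡ 0` modulo `p` such that there are no primes at distance at
most `κ f(p)` from `x ^ 2` or from `y ^ 2`; in particular none of the intervals `(x ^ 2, x ^ 2 + κ f(p)]` and
`(y ^ 2, y ^ 2 + κ f(p)]` contains a prime.  (A box of area `V` contains about `V / p` points of the curve.)

Proof.  The exponential sums over the curve are `≤ 12 d ^ 4 √p` (Weil's bound, proved in Lean in the library), so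
that the points are equidistributed in progressions of small moduli in both coordinates.  Then the covering sieve
for squares (with its quadratic large sieve inequality for the survivors) is run on both coordinates at the same
time: an integer `x ^ 2 + h` or `y ^ 2 + h` with `- h` not a square and `|h| ≤ κ f(p)` is given a prime factor
`≤ p ^ δ`, and for `- h = t ^ 2` one has `x ^ 2 + h = (x - t) (x + t)`.
-/

namespace Pool.Agent.Results.MP_73869e_nt.PointsOfPlaneCurves

open Polynomial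

/-- The record scale `f(x) = log x (log₂ x)² log₄ x / (log₃ x)²` (iterated natural logarithms). -/
noncomputable def f (x : ℝ) : ℝ :=
  Real.log x * (Real.log (Real.log x)) ^ 2 * Real.log (Real.log (Real.log (Real.log x))) /
    (Real.log (Real.log (Real.log x))) ^ 2

/-- There is no prime at distance at most `g` from the square of `n`. -/
def NoPrimesNearSquare (g : ℝ) (n : ℤ) : Prop :=
  ∀ q : ℕ, q.Prime → g < |(q : ℝ) - (n : ℝ) ^ 2|

/-- The polynomial `F`, a polynomial in `y` whose coefficients are polynomials in `x`, is irreducible over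
the algebraic closure of the field with `p` elements. -/
def AbsIrreducible (p : ℕ) [Fact p.Prime] (F : (ZMod p)[X][X]) : Prop :=
  Irreducible (F.map (mapRingHom (algebraMap (ZMod p) (AlgebraicClosure (ZMod p)))))

/-- The total degree of `F` is at most `d`. -/
def DegreeLE {p : ℕ} (F : (ZMod p)[X][X]) (d : ℕ) : Prop :=
  ∀ i j, d < i + j → (F.coeff i).coeff j = 0

/-- **No primes near the squares of both coordinates of the points of plane curves modulo primes.** -/
theorem result (δ : ℝ) (hδ : 0 < δ) (hδ1 : δ ≤ 1) :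
    ∃ κ : ℝ, 0 < κ ∧ ∃ p₀ : ℕ, ∀ (p : ℕ) [Fact p.Prime], p₀ ≤ p →
    ∀ (d : ℕ) (F : (ZMod p)[X][X]), (d : ℝ) ≤ (p : ℝ) ^ (δ / 50) → DegreeLE F d → ¬ DegreeLE F 1 →
      AbsIrreducible p F →
    ∀ (M₁ M₂ : ℤ) (L₁ L₂ : ℕ), 2 * (p : ℝ) ^ δ ≤ M₁ → 2 * (p : ℝ) ^ δ ≤ M₂ →
      (p : ℝ) ^ δ ≤ L₁ → L₁ ≤ p → (p : ℝ) ^ δ ≤ L₂ → L₂ ≤ p →
      (p : ℝ) ^ (3 / 2 + δ) ≤ L₁ * L₂ →
    (p : ℝ) ^ (-δ) * (L₁ * L₂ / p) ≤
      (Set.ncard {z : ℤ × ℤ | (M₁ < z.1 ∧ z.1 ≤ M₁ + L₁) ∧ (M₂ < z.2 ∧ z.2 ≤ M₂ + L₂) ∧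
        F.evalEval (z.1 : ZMod p) (z.2 : ZMod p) = 0 ∧
        NoPrimesNearSquare (κ * f p) z.1 ∧ NoPrimesNearSquare (κ * f p) z.2} : ℝ) := by
  obtain ⟨κ, hκ, p₀, h⟩ := Run7.h914.SQJ.rec_curveS δ hδ hδ1
  obtain ⟨p₁, h'⟩ := Run7.h914.ff_small κ δ hκ hδ
  refine ⟨κ, hκ, max p₀ p₁, ?_⟩
  intro p _ hp d F hd hF hF1 hirr M₁ M₂ L₁ L₂ hM1 hM2 h1 h2 h3 h4 hV
  obtain ⟨b0, b1, b2⟩ := h' p ((le_max_right _ _).trans hp)
  have hex : ∃ i j, 2 ≤ i + j ∧ (F.coeff i).coeff j ≠ 0 := by
    by_contra hc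
    push Not at hc
    exact hF1 fun i j hij => hc i j (by omega)
  have key := h p ((le_max_left _ _).trans hp) d F hd hF hex hirr (fun j => if j = 0 then M₁ else M₂)
    (fun j => if j = 0 then L₁ else L₂) (by
    intro j
    by_cases hj : j = 0
    · simp only [hj, if_true]; exact ⟨h1, h2⟩
    · simp only [hj, if_false]; exact ⟨h3, h4⟩) (by simpa using hV)
  refine le_trans (le_of_eq (by simp)) (key.trans ?_)
  rw [Nat.cast_le]
  refine Set.ncard_le_ncard_of_injOn (fun z => (z 0, z 1)) ?_ ?_ ?_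
  · rintro z ⟨hz1, hz2, hz3⟩
    have e0 := hz1 0
    have e1 := hz1 1
    simp only [if_true, Fin.one_eq_zero_iff, OfNat.ofNat_ne_one, if_false] at e0 e1
    have hz : ∀ j : Fin 2, 2 * (p : ℝ) ^ δ < z j := by
      intro j
      fin_cases j
      · have : (M₁ : ℝ) < z 0 := by exact_mod_cast e0.1
        exact lt_of_le_of_lt hM1 this
      · have : (M₂ : ℝ) < z 1 := by exact_mod_cast e1.1
        exact lt_of_le_of_lt hM2 this
    exact ⟨e0, e1, hz2, Run7.h914.SQJ.empty_of b0 b1 b2 (hz 0) (hz3 0),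
      Run7.h914.SQJ.empty_of b0 b1 b2 (hz 1) (hz3 1)⟩
  · intro z _ z' _ hzz
    simp only [Prod.mk.injEq] at hzz
    funext j
    fin_cases j
    · exact hzz.1
    · exact hzz.2
  · refine (Set.finite_Icc (M₁, M₂) (M₁ + L₁, M₂ + L₂)).subset ?_
    rintro z ⟨hz1, hz2, -⟩
    exact ⟨⟨hz1.1.le, hz2.1.le⟩, ⟨hz1.2, hz2.2⟩⟩

end Pool.Agent.Results.MP_73869e_nt.PointsOfPlaneCurves
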