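import Pool.Agent.Run7.h914.SQJ.SysR
import Pool.Agent.Run7.h914.Gap

set_option autoImplicit false

/-!
# No primes near the squares of all the coordinates of the solutions of systems modulo primes

Write `f(x) = log x (log₂ x)² log₄ x / (log₃ x)²` for the record size of the known prime-free intervals.

(1) Let `p` be a large prime, `n > 2 k`, and let `P_ij` (`i ≤ n`, `j ≤ k`) be ANY polynomials over the field with
`p` elements, of degrees at most `p ^ (δ / (50 n))`, such that for every `i` no nontrivial linear combination of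
`P_i1, …, P_ik` is of the form `a X + c`.  Consider the solutions modulo `p` of the system

  `P_1j(x_1) + … + P_nj(x_n) ≡ b_j   (j = 1, …, k)`.

Every box `∏ (M_i, M_i + L_i]` with `M_i ≥ 2 p ^ δ`, with sides between `p ^ δ` and `p` and of volume
`V ≥ p ^ (n / 2 + k + δ)` contains at least `p ^ (-δ) V / p ^ k` integer points `z` which are solutions such that
there are no primes at distance at most `κ f(p)` from any of the SQUARES `z_1 ^ 2, …, z_n ^ 2`.  (About `V / p ^ k`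
points of the box are solutions.)

(2) In particular, for `n ≥ 3` and `m ≥ 2` every residue modulo every large prime `p` is the sum of `n` `m`-th powers
of integers `z_i` of any intervals `(M_i, M_i + H]` of length `H ≥ p ^ (1 / 2 + 1 / n + δ)`, `M_i ≥ 2 p ^ δ`, such
that none of the intervals `(z_i ^ 2, z_i ^ 2 + κ f(p)]` contains a prime.  For `m = 2`: every residue is the sum of
three squares followed by record prime-free intervals.

Proof.  The exponential sums over the solutions are, by the orthogonality of the characters, means of products of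
`n` sums of one variable, which are `O(√p)` by Weil's bound.  So the solutions in the box are equidistributed in
the progressions of moduli `≤ p ^ η`, all coordinates independently.  Then the covering sieve for squares (with its
quadratic large sieve inequality for the survivors) is run on ALL coordinates at the same time: an integer
`z_j ^ 2 + h` with `- h` not a square is given a prime factor `≤ p ^ δ` for every `j` and every `|h| ≤ κ f(p)`, and
for `- h = t ^ 2` one has `z_j ^ 2 + h = (z_j - t) (z_j + t)`.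
-/

namespace Pool.Agent.Results.MP_73869e_nt.SystemsModP

open Polynomial

/-- The record scale `f(x) = log x (log₂ x)² log₄ x / (log₃ x)²` (iterated natural logarithms). -/
noncomputable def f (x : ℝ) : ℝ :=
  Real.log x * (Real.log (Real.log x)) ^ 2 * Real.log (Real.log (Real.log (Real.log x))) /
    (Real.log (Real.log (Real.log x))) ^ 2

/-- There is no prime at distance at most `g` from the square of `n`. -/
def NoPrimesNearSquare (g : ℝ) (n : ℤ) : Prop :=
  ∀ q : ℕ, q.Prime → g < |(q : ℝ) - (n : ℝ) ^ 2|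

/-- `z` is in the box, and there are no primes at distance at most `g` from the squares of its coordinates. -/
def GoodPoint {r : ℕ} (g : ℝ) (M : Fin r → ℤ) (L : Fin r → ℕ) (z : Fin r → ℤ) : Prop :=
  (∀ j, M j < z j ∧ z j ≤ M j + L j) ∧ ∀ j, NoPrimesNearSquare g (z j)

theorem conv {r : ℕ} {κ δ : ℝ} {p : ℕ} (b0 : 0 ≤ κ * f p) (b1 : κ * f p ≤ (p : ℝ) ^ δ) (b2 : 1 ≤ (p : ℝ) ^ δ)
    {M : Fin r → ℤ} (hM : ∀ j, 2 * (p : ℝ) ^ δ ≤ M j) {L : Fin r → ℕ} {z : Fin r → ℤ}
    (h1 : ∀ j, M j < z j ∧ z j ≤ M j + L j) (h3 : Run7.h914.SQJ.GoodS r κ δ p z) : GoodPoint (κ * f p) M L z := by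
  refine ⟨h1, fun j => ?_⟩
  refine Run7.h914.SQJ.empty_of b0 b1 b2 ?_ (h3 j)
  have : (M j : ℝ) < z j := by exact_mod_cast (h1 j).1
  exact lt_of_le_of_lt (hM j) this

/-- The general theorem. -/
theorem main (n k : ℕ) (hn : 2 * k < n) (δ : ℝ) (hδ : 0 < δ) (hδ1 : δ ≤ 1) :
    ∃ κ : ℝ, 0 < κ ∧ ∃ p₀ : ℕ, ∀ (p : ℕ) [Fact p.Prime], p₀ ≤ p →
      ∀ (d : ℕ) (P : Fin n → Fin k → (ZMod p)[X]) (b : Fin k → ZMod p), (d : ℝ) ≤ (p : ℝ) ^ (δ / (50 * n)) →
      (∀ i j, (P i j).natDegree ≤ d) →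
      (∀ i, ∀ (t : Fin k → ZMod p) (a c : ZMod p), ∑ j, C (t j) * P i j = C a * X + C c → t = 0) →
      ∀ (M : Fin n → ℤ) (L : Fin n → ℕ), (∀ j, 2 * (p : ℝ) ^ δ ≤ M j) → (∀ j, (p : ℝ) ^ δ ≤ L j ∧ L j ≤ p) →
        (p : ℝ) ^ ((n : ℝ) / 2 + k + δ) ≤ ∏ j, (L j : ℝ) →
      (p : ℝ) ^ (-δ) * ((∏ j, (L j : ℝ)) / (p : ℝ) ^ k) ≤
        (Set.ncard {z : Fin n → ℤ | GoodPoint (κ * f p) M L z ∧
          ∀ j, ∑ i, (P i j).eval (z i : ZMod p) = b j} : ℝ) := by
  obtain ⟨κ, hκ, p₀, h⟩ := Run7.h914.SQJ.rec_sysS n k hn δ hδ hδ1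
  obtain ⟨p₁, h'⟩ := Run7.h914.ff_small κ δ hκ hδ
  refine ⟨κ, hκ, max p₀ p₁, ?_⟩
  intro p _ hpp d P b hd hP hind M L hM hL hV
  obtain ⟨b0, b1, b2⟩ := h' p ((le_max_right _ _).trans hpp)
  have hp : p.Prime := Fact.out
  have hp0 : (0 : ℝ) < p := by exact_mod_cast hp.pos
  have key := h p ((le_max_left _ _).trans hpp) d P b hd hP hind M L hL hV
  have hv : (p : ℝ) ^ ((n : ℝ) - k) * ∏ j, ((L j : ℝ) / p) = (∏ j, (L j : ℝ)) / (p : ℝ) ^ k := by
    rw [Finset.prod_div_distrib, Finset.prod_const, Finset.card_univ, Fintype.card_fin, Real.rpow_sub hp0,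
      Real.rpow_natCast, Real.rpow_natCast]
    field_simp
  rw [hv] at key
  refine key.trans ?_
  rw [Nat.cast_le]
  refine Set.ncard_le_ncard ?_ ?_
  · rintro z ⟨h1, h2, h3⟩
    exact ⟨conv b0 b1 b2 hM h1 h3, h2⟩
  · refine (Set.Finite.pi' (fun j => Set.finite_Ioc (M j) (M j + L j))).subset ?_
    intro z hz j
    exact hz.1.1 j

/-- **No primes near the squares of all the coordinates of the solutions of systems modulo primes.** -/
theorem result (n : ℕ) (δ : ℝ) (hδ : 0 < δ) (hδ1 : δ ≤ 1) :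
    (∀ k : ℕ, 2 * k < n → ∃ κ : ℝ, 0 < κ ∧ ∃ p₀ : ℕ, ∀ (p : ℕ) [Fact p.Prime], p₀ ≤ p →
      ∀ (d : ℕ) (P : Fin n → Fin k → (ZMod p)[X]) (b : Fin k → ZMod p), (d : ℝ) ≤ (p : ℝ) ^ (δ / (50 * n)) →
      (∀ i j, (P i j).natDegree ≤ d) →
      (∀ i, ∀ (t : Fin k → ZMod p) (a c : ZMod p), ∑ j, C (t j) * P i j = C a * X + C c → t = 0) →
      ∀ (M : Fin n → ℤ) (L : Fin n → ℕ), (∀ j, 2 * (p : ℝ) ^ δ ≤ M j) → (∀ j, (p : ℝ) ^ δ ≤ L j ∧ L j ≤ p) →
        (p : ℝ) ^ ((n : ℝ) / 2 + k + δ) ≤ ∏ j, (L j : ℝ) →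
      (p : ℝ) ^ (-δ) * ((∏ j, (L j : ℝ)) / (p : ℝ) ^ k) ≤
        (Set.ncard {z : Fin n → ℤ | GoodPoint (κ * f p) M L z ∧
          ∀ j, ∑ i, (P i j).eval (z i : ZMod p) = b j} : ℝ)) ∧
    (3 ≤ n → ∀ m : ℕ, 2 ≤ m → ∃ κ : ℝ, 0 < κ ∧ ∃ p₀ : ℕ, ∀ (p : ℕ) [Fact p.Prime], p₀ ≤ p →
      ∀ (b : ZMod p) (M : Fin n → ℤ) (H : ℕ), (∀ j, 2 * (p : ℝ) ^ δ ≤ M j) →
        (p : ℝ) ^ (1 / 2 + 1 / (n : ℝ) + δ) ≤ H → H ≤ p →
      (p : ℝ) ^ (-δ) * ((H : ℝ) ^ n / p) ≤
        (Set.ncard {z : Fin n → ℤ | GoodPoint (κ * f p) M (fun _ => H) z ∧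
          ∑ i, (z i : ZMod p) ^ m = b} : ℝ)) := by
  refine ⟨fun k hk => main n k hk δ hδ hδ1, fun hn m hm => ?_⟩
  obtain ⟨κ, hκ, p₀, h⟩ := main n 1 (by omega) δ hδ hδ1
  have hn0 : (0 : ℝ) < n := by exact_mod_cast (by omega : 0 < n)
  obtain ⟨p₁, h1⟩ := Run7.h914.ev_const (δ / (50 * n)) m (by positivity)
  refine ⟨κ, hκ, max p₀ p₁, ?_⟩
  intro p _ hpp b M H hM hH hHp
  have hp : p.Prime := Fact.out
  have hp0 : (0 : ℝ) < p := by exact_mod_cast hp.pos
  have hp1 : (1 : ℝ) ≤ p := by exact_mod_cast hp.one_lt.le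
  have key := h p ((le_max_left _ _).trans hpp) m (fun _ _ => X ^ m) (fun _ => b)
    (h1 p ((le_max_right _ _).trans hpp)) (fun _ _ => natDegree_X_pow_le m) (by
      intro _ t a c h2
      rw [Fin.sum_univ_one] at h2
      have h3 := congrArg (fun q => q.coeff m) h2
      simp only [coeff_C_mul, coeff_X_pow, coeff_add, coeff_X, coeff_C] at h3
      rw [if_pos trivial, if_neg (by omega), if_neg (by omega), mul_one, mul_zero, add_zero] at h3
      funext j
      rw [Subsingleton.elim j 0]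
      exact h3) M (fun _ => H) hM (fun _ => ⟨by
        refine le_trans (Real.rpow_le_rpow_of_exponent_le hp1 ?_) hH
        have : 0 ≤ 1 / (n : ℝ) := by positivity
        linarith, hHp⟩) (by
      rw [Finset.prod_const, Finset.card_univ, Fintype.card_fin]
      have h2 : ((p : ℝ) ^ (1 / 2 + 1 / (n : ℝ) + δ)) ^ n ≤ (H : ℝ) ^ n :=
        pow_le_pow_left₀ (Real.rpow_nonneg hp0.le _) hH n
      refine le_trans ?_ h2
      rw [← Real.rpow_natCast _ n, ← Real.rpow_mul hp0.le]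
      apply Real.rpow_le_rpow_of_exponent_le hp1
      have h3 : (1 / 2 + 1 / (n : ℝ) + δ) * n = n / 2 + 1 + δ * n := by field_simp
      have h4 : (3 : ℝ) ≤ n := by exact_mod_cast hn
      rw [h3]
      push_cast
      nlinarith)
  rw [Finset.prod_const, Finset.card_univ, Fintype.card_fin, pow_one] at key
  refine key.trans ?_
  rw [Nat.cast_le]
  refine Set.ncard_le_ncard ?_ ?_
  · rintro z ⟨h2, h3⟩
    refine ⟨h2, ?_⟩
    have := h3 0
    simpa only [eval_pow, eval_X] using this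
  · refine (Set.Finite.pi' (fun j => Set.finite_Ioc (M j) (M j + H))).subset ?_
    intro z hz j
    exact hz.1.1 j

end Pool.Agent.Results.MP_73869e_nt.SystemsModP
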